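import Pool.Agent.Lib.ZE.B_S0
import Pool.Agent.Lib.ZE.B_KT
import Pool.Agent.Lib.ZE.B_QQ
import Pool.Agent.Lib.ZE.B_OR2
import Pool.Agent.Lib.ZK.N_ENV
import Pool.Agent.Lib.ZK.N_EXS
import Pool.Agent.Lib.ZK.N_UNI

/-! Domination on a compact Kähler manifold: the metrics with a mean bound for the Ricci form. -/

open scoped Classical Topology ContDiff ENNReal ComplexOrder Matrix
open Set MeasureTheory Filter

noncomputable section

namespace Pool.Agent.Lib.DK63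

open Pool.Agent.Lib.HS32 Pool.Agent.Lib.DM.K63 Pool.Agent.Lib.ZE Pool.Agent.Lib.ZE.S0
open Pool.Agent.Lib.ZK (fm Env Sol)
open Pool.Agent.Lib.DX (ta mx fl la Rc)

variable {n : ℕ} {M : Mf n} [M.Cpt] {ι : Type} [Fintype ι] (D : Dt M ι)

omit [M.Cpt] [Fintype ι] in
theorem tr_sum (G : M.Fam (Mat n)) (T : ι → M.Fam (Mat n)) (s : Finset ι) (x : M.X) :
    M.tr G (∑ i ∈ s, T i) x = ∑ i ∈ s, M.tr G (T i) x := by
  induction s using Finset.induction_on with
  | empty => simpa using Mf.tr_zero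
  | insert i s hi ih => rw [Finset.sum_insert hi, Finset.sum_insert hi, Mf.tr_add, ih]

/-- The integral of the error. -/
theorem err {e C s : ℝ} (A : ℝ) (he : 0 < e) (hC : 0 ≤ C) (hs : 0 < s) : ∃ ε₀ > (0 : ℝ),
    ∀ e' ∈ Ioc 0 ε₀, ∃ d₀ > (0 : ℝ), ∀ d ∈ Ioc 0 d₀, ∀ U, M.Sm U → M.Kae (D.th e e' + M.hs U) →
      (∀ y, |U y| ≤ A) →
      ∫ y, M.tr (D.th e e' + M.hs U) (D.Q C d) y ∂M.mu (D.th e e' + M.hs U) ≤ s := by
  have hm := D.kae.toMet
  obtain ⟨K, hK⟩ : ∃ K : ℝ, K = ∑ i, max (D.κ i) 0 + 1 := ⟨_, rfl⟩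
  have K0 : 0 ≤ ∑ i, max (D.κ i) 0 := Finset.sum_nonneg fun i _ => le_max_right _ _
  have K1 : 0 < K := by linarith
  obtain ⟨ε₀, ε0, ho⟩ := zOR2 n M ι D 1 e (s / 2 / K) one_pos he (by positivity)
  simp only [one_smul] at ho
  refine ⟨ε₀, ε0, fun e' he' => ?_⟩
  have hα := KT.clo D e e'
  by_cases hex : ∃ U, M.Sm U ∧ M.Kae (D.th e e' + M.hs U) ∧ ∀ y, |U y| ≤ A
  swap
  · exact ⟨1, one_pos, fun d _ U h1 h2 h3 => absurd ⟨U, h1, h2, h3⟩ hex⟩
  obtain ⟨U₀, a1, a2, a3⟩ := hex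
  obtain ⟨L, hL⟩ : ∃ L : ℝ, L = (C + 1) * (Fintype.card ι + 1) := ⟨_, rfl⟩
  have L0 : 0 < L := by rw [hL]; positivity
  have kg := fun i => ZE45.bridge hm (D.sg i)
  choose c c0 hc _ using fun i => (mBD _ M _ hm).1 _ (D.sg i).clo.toForm
  choose d₀ d0 hd using fun i => cln0 D.kae a2 (D.sg i).sm (D.sg i).nn (kg i).ne (c0 i).le
    ((kg i).low hm (c0 i).le (hc i)) (A + A) (η := s / 2 / L) (by positivity)
  obtain ⟨d₁, d1, hd1⟩ : ∃ d₁ > (0 : ℝ), ∀ i, d₁ ≤ d₀ i := by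
    obtain ⟨r, hr, r0⟩ := ((eventually_all.2 fun i =>
      mem_nhdsWithin_of_mem_nhds (Iic_mem_nhds (d0 i))).and
      (self_mem_nhdsWithin (a := (0 : ℝ)) (s := Ioi 0))).exists
    exact ⟨r, r0, hr⟩
  refine ⟨d₁, d1, fun d hdd U b1 b2 b3 => ?_⟩
  set G := D.th e e' + M.hs U with hG
  have gm := b2.toMet
  have rg : ∀ i, M.Sm (fl (D.σ i) d) ∧ M.Sm (la (D.σ i) d) := fun i =>
    ⟨(kg i).lsm hdd.1, (kg i).lam hdd.1⟩
  have e1 : ∀ y, M.tr G (D.Q C d) y =
      ∑ i, (max (D.κ i) 0 * (M.tr G (D.Θ i) y + M.lap G (fl (D.σ i) d) y) +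
        C * (la (D.σ i) d y * M.tr G D.H y)) := fun y => by
    rw [Dt.Q, Mf.tr_add, Finset.sum_add_distrib, ← Finset.mul_sum, ← Finset.sum_mul, ← mul_assoc,
      tr_sum]
    simp only [Mf.tr_smul, Mf.tr_add, Mf.lap]
    exact congrArg _ (Mf.tr_fsmul (fun x => C * ∑ i, la (D.σ i) d x))
  have c1 := fun i => tr_c gm (D.sg i).clo.toTen
  have c2 : ∀ i, Continuous (M.lap G (fl (D.σ i) d)) := fun i =>
    tr_c gm ((mHES _ M).1 _ (rg i).1).toTen
  have c3 := tr_c gm hm.toTen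
  have c5 := fun i => (rg i).2.continuous
  have i1 : ∀ i, max (D.κ i) 0 * ∫ y, M.tr G (D.Θ i) y ∂M.mu G ≤
      max (D.κ i) 0 * (s / 2 / K) := fun i => by
    rcases le_or_gt (D.κ i) 0 with h | h
    · simp [max_eq_right h]
    refine mul_le_mul_of_nonneg_left ?_ (le_max_right _ _)
    rw [← ZE45.mx_met hm gm, pol3 hm hα (D.sg i).clo b1]
    exact ho e' he' i h
  have i2 : ∀ i, ∫ y, la (D.σ i) d y * M.tr G D.H y ∂M.mu G ≤ s / 2 / L := fun i => by
    have e2 : M.All fun a w => (D.th e e' + M.hs U₀ + M.hs fun y => U y - U₀ y) a w = G a w :=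
      fun a ha w hw => by
        simp only [hG, Pi.add_apply, ((mLAP _ M U U₀ b1 a1).1 0 a ha w hw).2.2.1]
        abel
    have k1 := hd i d ⟨hdd.1, hdd.2.trans (hd1 i)⟩ _ (b1.sub a1) (gm.congr e2)
      fun y => (abs_sub _ _).trans (add_le_add (b3 y) (a3 y))
    rwa [Mf.mu_congr e2, Mf.tr_congr (T := D.H) e2 fun _ _ _ _ => rfl] at k1
  simp only [e1]
  rw [integral_finsetSum _ fun i _ => int gm ((continuous_const.fun_mul
    ((c1 i).fun_add (c2 i))).fun_add (continuous_const.fun_mul ((c5 i).fun_mul c3)))]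
  calc _ ≤ ∑ i, (max (D.κ i) 0 * (s / 2 / K) + C * (s / 2 / L)) := Finset.sum_le_sum fun i _ => by
        rw [integral_add (int gm (continuous_const.fun_mul ((c1 i).fun_add (c2 i))))
          (int gm (continuous_const.fun_mul ((c5 i).fun_mul c3))), integral_const_mul,
          integral_const_mul, integral_add (int gm (c1 i)) (int gm (c2 i)),
          ((mGRN _ M).2 G _ _ b2 (rg i).1 (rg i).1).1, add_zero]
        exact add_le_add (i1 i) (mul_le_mul_of_nonneg_left (i2 i) hC)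
    _ ≤ s / 2 + s / 2 := by
        rw [Finset.sum_add_distrib, ← Finset.sum_mul, Finset.sum_const, Finset.card_univ,
          nsmul_eq_mul, ← mul_assoc]
        refine add_le_add ?_ ?_
        · rw [← mul_div_assoc, div_le_iff₀ K1]
          nlinarith
        · rw [← mul_div_assoc, div_le_iff₀ L0, hL]
          have : (0 : ℝ) ≤ Fintype.card ι := Nat.cast_nonneg _
          nlinarith [mul_nonneg this hC]
    _ = s := add_halves s

theorem ex_small (a : ℝ) {κ η : ℝ} (κ0 : 0 < κ) (η0 : 0 < η) :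
    ∃ L, Real.exp (-(κ * L)) * a ≤ η := by
  have := (Real.tendsto_exp_neg_atTop_nhds_zero.comp (tendsto_id.const_mul_atTop κ0)).mul_const a
  rw [zero_mul] at this
  exact (this.eventually (ge_mem_nhds η0)).exists

theorem ex_le {q ρ x : ℝ} (hq : 1 < q) :
    Real.exp (-x) ≤ Real.exp ρ + Real.exp (-((q - 1) * ρ)) * Real.exp (-(q * x)) := by
  rcases le_total (-x) ρ with h | h
  · exact le_add_of_le_of_nonneg (Real.exp_le_exp.2 h) (by positivity)
  · rw [← Real.exp_add]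
    exact le_add_of_nonneg_of_le (Real.exp_pos _).le (Real.exp_le_exp.2 (by nlinarith))

/-- One metric of the family. -/
structure Au (C₀ C₁ L c η ε : ℝ) (α : M.Fam (Mat n)) (w : M.X → ℝ) (Q : M.Fam (Mat n)) : Prop where
  le : M.Le α (C₀ • D.H)
  up : ∀ ψ, M.Sm ψ → M.Met (α + M.hs ψ) → M.Met (D.T + ε • D.H + M.hs ψ)
  sm : M.Sm w
  ub : ∀ x, w x ≤ C₁
  rc : Rc M (α + M.hs w) Q
  sml : ∀ S, MeasurableSet S → (M.mu D.H).real S ≤ c →
    (M.mu (α + M.hs w)).real ({x | w x < -L} ∪ S) ≤ η * (M.mu (α + M.hs w)).real univ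

theorem aub (hA : HS.St_AUBIN) {η : ℝ} (η0 : 0 < η) : ∃ C₀ C₁ L c : ℝ, 0 < c ∧ ∀ ε > (0 : ℝ),
    ∃ α w Q, Au D C₀ C₁ L c η ε α w Q := by
  have hm := D.kae.toMet
  obtain ⟨k1, ⟨C₀, k2⟩, k3, -, k5, k6, -, k8⟩ := zKT n M ι D
  obtain ⟨CQ, CQ0, hQ⟩ := zQQ n M ι D
  obtain ⟨q, δ, Ck, q1, δ0, hk⟩ := D.klt
  obtain ⟨P, hP⟩ := sup_le hm C₀
  obtain ⟨-, fin, -, v0, -, -, hmu⟩ := mMU n M D.H hm
  set v := (M.mu D.H).real univ with hv
  obtain ⟨C₁, hC₁⟩ : ∃ C₁, C₁ = (1 + Ck / δ + P) / v := ⟨_, rfl⟩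
  obtain ⟨S, S0, hS⟩ := ZK.n_UNI hA n M D.H C₀ 1 q (Real.exp (q * C₁) * Ck) D.pos D.kae q1
  obtain ⟨L, hL⟩ := ex_small (v + Ck) one_pos (show 0 < η / 3 by positivity)
  obtain ⟨ρ, hρ⟩ := ex_small (Real.exp C₁ * Ck) (sub_pos.2 q1) (show 0 < η / 3 by positivity)
  have ha : ∀ e e' : ℝ, ∃ φ, 0 < e → 0 < e' → Env M (D.th e e') φ e' := fun e e' => by
    by_cases h : 0 < e ∧ 0 < e'
    · obtain ⟨ψ, p1, p2⟩ := k3 e h.1 e' h.2
      obtain ⟨φ, hφ⟩ := ZK.n_ENV hA n M D.H _ ψ e' D.pos D.kae (k1 e e') p1 p2 h.2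
      exact ⟨φ, fun _ _ => hφ⟩
    · exact ⟨0, fun a b => absurd ⟨a, b⟩ h⟩
  choose a ha using ha
  refine ⟨C₀, C₁, L, η / 3 / (Real.exp C₁ * Real.exp ρ), by positivity, fun ε ε0 => ?_⟩
  obtain ⟨r, r0, hr⟩ := k8 ε ε0
  obtain ⟨e, e1, e2⟩ : ∃ e, e ∈ Ioc (0 : ℝ) 1 ∧ e ≤ r :=
    ⟨min 1 r, ⟨by positivity, min_le_left _ _⟩, min_le_right _ _⟩
  obtain ⟨B, hB⟩ := k5 a (fun e he e' he' => ha e e' he.1 he'.1) e e1
  obtain ⟨c, c0, hc⟩ := k6 1 one_pos e e1.1
  simp only [one_smul] at hc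
  obtain ⟨ε₀, ε1, h0⟩ := err D (|C₁| + (B + (v + Ck) + S)) e1.1 CQ0 c0
  obtain ⟨e', f1, f2, f3⟩ : ∃ e', 0 < e' ∧ e' ≤ e ∧ e' ≤ ε₀ :=
    ⟨min e ε₀, lt_min e1.1 ε1, min_le_left _ _, min_le_right _ _⟩
  have f4 : e' ∈ Ioc (0 : ℝ) 1 := ⟨f1, f2.trans e1.2⟩
  obtain ⟨d₀, d0, h1⟩ := h0 e' ⟨f1, f3⟩
  obtain ⟨d, d1, d2⟩ : ∃ d, d ∈ Ioc (0 : ℝ) 1 ∧ d ≤ d₀ :=
    ⟨min 1 d₀, ⟨by positivity, min_le_left _ _⟩, min_le_right _ _⟩
  obtain ⟨χ1, Q1, Q2, Q3⟩ := hQ d d1.1
  have hE := ha e e' e1.1 f1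
  obtain ⟨V, hV⟩ := ZK.n_EXS hA n M D.H _ _ D.pos D.kae (k1 e e') hE.sm hE.kae
  obtain ⟨w, hw⟩ := hV _ χ1
  have g1 : ∫ x, Real.exp (-(q * D.χ d x)) ∂M.mu D.H ≤ Ck := by
    simpa only [Dt.χ, mul_neg, neg_neg] using (hk d d1).1
  have g2 : ∫ x, Real.exp (δ * D.χ d x) ∂M.mu D.H ≤ Ck := by
    simpa only [Dt.χ, mul_neg] using (hk d d1).2
  generalize D.χ d = χ at *
  have iq := int hm (χ1.const_mul q).neg.exp.continuous
  have i1 := int hm χ1.neg.exp.continuous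
  have iw := int hm (hw.sm.sub χ1).exp.continuous
  have g3 : ∫ x, Real.exp (-χ x) ∂M.mu D.H ≤ v + Ck := by
    refine (integral_mono i1 ((integrable_const 1).add iq) fun x => by
      simpa using ex_le (ρ := 0) (x := χ x) q1).trans ?_
    simp only [Pi.add_apply]
    rw [integral_add (integrable_const _) iq, integral_const, smul_eq_mul, mul_one]
    linarith
  have G0 := ZK48.le_psh (k2 e e1 e' f4) hw.kae.toMet.nonneg
  have ub : ∀ x, w x ≤ C₁ := fun x => by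
    have m1 := integral_mono (int hm (hw.sm.sub χ1).continuous) iw fun x => by
      linarith [Real.add_one_le_exp (w x - χ x)]
    have m2 := integral_mono (int hm (χ1.const_mul δ).continuous)
      (int hm (χ1.const_mul δ).exp.continuous) fun x => by linarith [Real.add_one_le_exp (δ * χ x)]
    rw [integral_sub (int hm hw.sm.continuous) (int hm χ1.continuous), hw.one] at m1
    rw [integral_const_mul] at m2
    have m3 := (le_div_iff₀' δ0).2 (m2.trans g2)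
    rw [hC₁, le_div_iff₀ v0]
    linarith [hP w hw.sm G0 x]
  have Ck0 : 0 ≤ Ck := (integral_nonneg fun x => (Real.exp_pos _).le).trans g1
  have bd : ∀ x, |w x| ≤ |C₁| + (B + (v + Ck) + S) := fun x => by
    obtain ⟨y, hy⟩ := hw.sm.exists_max
    have m1 := hS _ V _ χ w (k1 e e') (k2 e e1 e' f4)
      ⟨hE.sm, hE.kae, hE.np, fun ψ a b c x => (hE.mx ψ a b c x).trans (by linarith [f4.2])⟩ hw
      ((integral_mono (int hm ((hw.sm.sub χ1).const_mul q).exp.continuous)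
        (iq.const_mul (Real.exp (q * C₁))) fun x => by
          rw [← Real.exp_add]
          exact Real.exp_le_exp.2 (by nlinarith [ub x])).trans (by
        rw [integral_const_mul]
        exact mul_le_mul_of_nonneg_left g1 (Real.exp_pos _).le)) x y
    have m2 := integral_mono iw (i1.const_mul (Real.exp (w y))) fun x => by
      rw [← Real.exp_add]
      exact Real.exp_le_exp.2 (by linarith [hy x])
    rw [hw.one, integral_const_mul] at m2
    have m3 := mul_le_mul_of_nonneg_left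
      (m2.trans (mul_le_mul_of_nonneg_left g3 (Real.exp_pos _).le)) (Real.exp_pos (-w y)).le
    rw [← mul_assoc, ← Real.exp_add, neg_add_cancel, Real.exp_zero, mul_one, one_mul] at m3
    have m4 := abs_le.1 (hB e' f4 x)
    refine abs_le.2 ⟨?_, ?_⟩
    · linarith [Real.add_one_le_exp (-w y), abs_nonneg C₁]
    · linarith [ub x, le_abs_self C₁]
  have cv := hc e' f1 V χ w hw
  have ch := (hmu _ hw.kae.toMet).2.1
  simp only [hw.eq, mul_assoc, integral_const_mul] at ch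
  have := (mMU n M _ hw.kae.toMet).2.1
  have vol : (M.mu (D.th e e' + M.hs w)).real univ = V := by
    simpa [hw.one] using ch fun _ => 1
  refine ⟨_, w, D.th e e' + M.hs w + D.Q CQ d, k2 e e1 e' f4,
    hr e ⟨e1.1, e2⟩ e' ⟨f1, f2.trans e2⟩, hw.sm, ub, ⟨hw.kae, hw.kae.toForm.add Q1,
      by simpa using hw.kae.toMet.nonneg.add Q2, le0.2 fun b hb z hz => ?_, ?_⟩, fun T hT hc => ?_⟩
  · have r := ((mHES n M).2.2.2.2.2.2.2.2.2 _ D.H hw.kae.toMet hm).2 b hb z hz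
    simp only [hw.eq, Real.log_mul hw.vp.ne' (Real.exp_pos _).ne', Real.log_exp,
      add_comm (Real.log V)] at r
    rw [hs_add_const (hw.sm.sub χ1) _ b hb z hz, ((mLAP n M _ _ hw.sm χ1).1 0 b hb z hz).2.2.1] at r
    refine (congrArg Matrix.PosSemidef ?_).mp (le0.1 (Q3 e e1.1.le e' f1.le) b hb z hz)
    simp only [Pi.add_apply, r]
    abel
  · simp only [Mf.tr_add (T := D.Q CQ d), hw.kae.toMet.tr_self]
    rw [integral_add (integrable_const _) (int hw.kae.toMet (tr_c hw.kae.toMet Q1.toTen)),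
      integral_const, smul_eq_mul, vol]
    linarith [h1 d ⟨d1.1, d2⟩ w hw.sm hw.kae bd]
  · have mA : MeasurableSet ({x | w x < -L} ∪ T) :=
      (measurableSet_lt hw.sm.continuous.measurable measurable_const).union hT
    have iT := (integrable_const (μ := M.mu D.H) (Real.exp C₁ * Real.exp ρ)).indicator hT
    rw [vol, ← integral_indicator_one mA, ch, mul_comm η]
    refine mul_le_mul_of_nonneg_left ((integral_mono_of_nonneg (g := fun x =>
      Real.exp (-(1 * L)) * Real.exp (-χ x) + T.indicator (fun _ => Real.exp C₁ * Real.exp ρ) x +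
        Real.exp C₁ * Real.exp (-((q - 1) * ρ)) * Real.exp (-(q * χ x)))
      (.of_forall fun x => mul_nonneg (Real.exp_pos _).le (indicator_nonneg (by simp) x))
      (((i1.const_mul _).add iT).add (iq.const_mul _)) (.of_forall fun x => ?_)).trans ?_) hw.vp.le
    · have p0 : 0 ≤ T.indicator (fun _ => Real.exp C₁ * Real.exp ρ) x :=
        indicator_nonneg (fun _ _ => by positivity) x
      have p1 : 0 ≤ Real.exp (-(1 * L)) * Real.exp (-χ x) := by positivity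
      have p2 : 0 ≤ Real.exp C₁ * Real.exp (-((q - 1) * ρ)) * Real.exp (-(q * χ x)) := by
        positivity
      beta_reduce
      by_cases h : x ∈ T
      · rw [indicator_of_mem h, indicator_of_mem (mem_union_right _ h), Pi.one_apply, mul_one,
          sub_eq_add_neg, Real.exp_add]
        nlinarith [mul_le_mul (Real.exp_le_exp.2 (ub x)) (ex_le (ρ := ρ) (x := χ x) q1)
          (Real.exp_pos _).le (Real.exp_pos _).le]
      by_cases h' : w x < -L
      · rw [indicator_of_mem (mem_union_left _ (show x ∈ {x | w x < -L} from h')), Pi.one_apply,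
          mul_one, ← Real.exp_add (-_)]
        linarith [Real.exp_le_exp.2 (show w x - χ x ≤ -(1 * L) + -χ x by linarith)]
      · rw [indicator_of_notMem fun k => k.elim h' h, mul_zero]
        linarith
    · rw [integral_add ((i1.const_mul _).fun_add iT) (iq.const_mul _),
        integral_add (i1.const_mul _) iT, integral_const_mul, integral_const_mul,
        integral_indicator_const _ hT, smul_eq_mul]
      rw [le_div_iff₀ (by positivity)] at hc
      nlinarith [mul_le_mul_of_nonneg_left g3 (Real.exp_pos (-(1 * L))).le,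
        mul_le_mul_of_nonneg_left g1
          (mul_pos (Real.exp_pos C₁) (Real.exp_pos (-((q - 1) * ρ)))).le]

end Pool.Agent.Lib.DK63
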