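import Pool.Agent.Lib.DK63.Aub
import Pool.Agent.Lib.DK.B_MVU
import Pool.Agent.Lib.DK.B_VOL
import Pool.Agent.Lib.DK.B_AVG
import Pool.Agent.Lib.NV5.D_MAX
import Pool.Agent.Lib.NV5.D_VOL

/-! Domination on a compact Kähler manifold, with a boundary. -/

open scoped Classical Topology ContDiff ENNReal ComplexOrder Matrix
open Set MeasureTheory Complex Filter

noncomputable section

namespace Pool.Agent.Lib.DK63

open Pool.Agent.Lib.HS32 Pool.Agent.Lib.HS32.Mf Pool.Agent.Lib.DM Pool.Agent.Lib.DM.K63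
open Pool.Agent.Lib.DK (Tn Dom)

variable {n : ℕ} {M : Mf n} [M.Cpt] {ι : Type} [Fintype ι] (D : ZE.Dt M ι) {O : Set M.X}

theorem oneZ (hA : HS.St_AUBIN) {g : M.X → ℂ} (h : Tn M O g) :
    Dom M D.H D.T O fun x => 1 + normSq (g x) := by
  obtain ⟨B, B0, hB⟩ := h
  have hm := D.kae.toMet
  have fin := (mMU n M _ hm).2.1
  obtain ⟨C₀, C₁, L₁, c, c0, hK⟩ := aub D hA (η := 1 / (8 * (2 ^ n + 1))) (by positivity)
  obtain ⟨α, A, α0, -, hS⟩ := GH76.skoda M C₀ hm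
  obtain ⟨δ, δ0, δ1⟩ : ∃ δ : ℝ, 0 < δ ∧ 2 ^ (n + 2) * δ * (B * (n + 1)) ≤ 1 :=
    ⟨1 / (2 ^ (n + 2) * (B * (n + 1) + 1)), by positivity, by
      rw [mul_one_div, div_mul_eq_mul_div, div_le_one (by positivity)]
      exact mul_le_mul_of_nonneg_left (by linarith) (by positivity)⟩
  have lg : ∀ {V W : M.X → ℝ}, (∀ x, V x ≠ 0 ↔ x ∈ O) → (∀ x ∈ O, W x = V x * normSq (g x)) →
      ∀ x ∈ O, Real.log (V x + W x) - Real.log (V x) = Real.log (1 + normSq (g x)) :=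
    fun h1 h2 x hx => by
      rw [h2 x hx, ← mul_one_add, Real.log_mul ((h1 x).2 hx)
        (add_pos_of_pos_of_nonneg one_pos (normSq_nonneg _)).ne', add_sub_cancel_left]
  obtain ⟨_, _, Q₁, g⟩ := hK 1 one_pos
  obtain ⟨V₁, W₁, _, _, -, -, P₁, o₁, w₁, -⟩ := hB _ Q₁ g.rc.kae g.rc.frm g.rc.nn g.rc.ric
  have mq : Measurable fun x => δ * (Real.log (V₁ x + W₁ x) - Real.log (V₁ x)) :=
    (((P₁.sV.add P₁.sW).continuous.measurable.log).sub
      P₁.sV.continuous.measurable.log).const_mul δ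
  obtain ⟨L₂, hL⟩ := VOL.tail (M.mu D.H) mq (ENNReal.ofReal_pos.2 c0)
  obtain ⟨L, L0, L1⟩ : ∃ L : ℝ, 0 ≤ L ∧ L₂ + L₁ + C₁ ≤ L :=
    ⟨max 0 _, le_max_left _ _, le_max_right _ _⟩
  refine ⟨δ, α, max A (L + 3), δ0, α0, fun ε ε0 K hc hO => ?_⟩
  obtain ⟨β, a, Q, h⟩ := hK ε ε0
  have a1 := h.rc.kae
  have a6 := h.sm.add (sm_const (-C₁))
  have a7 : ∀ x, a x + -C₁ ≤ 0 := fun x => by linarith [h.ub x]
  have := (mMU n M _ a1.toMet).2.1
  obtain ⟨V, W, C', l, b1, b2, P, o, w, b3⟩ := hB _ Q a1 h.rc.frm h.rc.nn h.rc.ric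
  obtain ⟨u, u1, u2, ⟨x₀, u3⟩, u4⟩ := DK.dMVU DK.dVOL (dMAX hA) n M _ l (B * (n + 1)) C' δ L V W
    (fun x => B * M.tr (β + M.hs a) Q x) _ D.pos a1 P b1 b2 δ0.le
    (continuous_const.mul (tr_c a1.toMet h.rc.frm.toTen))
    (fun x => mul_nonneg B0 (a1.toMet.tr_nonneg h.rc.nn x)) b3 (by positivity)
    (by rw [integral_const_mul, mul_assoc]; exact mul_le_mul_of_nonneg_left h.rc.int B0) δ1
    a6.continuous a7 L0 (by
      have ae : ∀ᵐ x ∂M.mu (β + M.hs a), V x ≠ 0 := by simpa only [ae_iff, not_not] using P.nul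
      have k := h.sml _ (measurableSet_lt measurable_const mq)
        (ENNReal.toReal_le_of_le_ofReal c0.le hL)
      rw [one_div_mul_eq_div] at k
      refine le_trans (ENNReal.toReal_mono (measure_ne_top _ _)
        (measure_mono_ae (ae.mono fun x hx k => by_contra fun k' => ?_))) k
      have k1 : ¬a x < -L₁ := fun e => k' (Or.inl e)
      have k2 : ¬(L₂ : ℝ) < δ * (Real.log (V₁ x + W₁ x) - Real.log (V₁ x)) := fun e => k' (Or.inr e)
      have k3 : L < δ * (Real.log (V x + W x) - Real.log (V x)) - (a x + -C₁) := k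
      rw [lg o w x ((o x).1 hx), ← lg o₁ w₁ x ((o x).1 hx)] at k3
      linarith)
    K hc fun x hx => (o x).2 (hO hx)
  obtain ⟨y, hy⟩ := (u1.add h.sm).exists_max
  have sa := (u1.add h.sm).add (sm_const (-(u y + a y)))
  have l4 : M.Met (β + M.hs fun x => u x + a x + -(u y + a y)) := u2.toMet.congr fun e he z hz => by
    simp only [Pi.add_apply, hs_add_const (u1.add h.sm) _ e he z hz,
      ((mLAP n M _ _ u1 h.sm).1 0 e he z hz).2.1]
    abel
  have n0 : ∀ x, u x + a x + -(u y + a y) ≤ 0 := fun x => by linarith [hy x]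
  refine ⟨_, sa, (h.up _ sa l4).nonneg, n0, (hS _ sa (ZK48.le_psh h.le l4.nonneg) n0
    ⟨y, add_neg_cancel _⟩).trans (le_max_left _ _), fun x hx => ?_⟩
  have := u4 x hx
  rw [lg o w x (hO hx)] at this
  exact le_max_of_le_right (by linarith [hy x₀, a7 x])

/-- Domination for the data with a boundary. -/
theorem domZ (hA : HS.St_AUBIN) {κ : Type} [Fintype κ] [Nonempty κ] {g : κ → M.X → ℂ}
    (h : ∀ i, Tn M O (g i)) : Dom M D.H D.T O fun x => 1 + ∑ i, normSq (g i x) :=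
  DK.dAVG n M _ _ O κ _ D.kae.toMet (fun _ _ => normSq_nonneg _) fun i => oneZ D hA (h i)

end Pool.Agent.Lib.DK63
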